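import Mathlib

/-!
A real-analytic diffeomorphism of the flat 2-torus for which every invariant probability measure
has entropy strictly smaller than the integral of the sum of the positive Lyapunov exponents.

The diffeomorphism is `(u, v) ↦ (u + sin v / 2, v + sin u / 2)` on `(ℝ / 2πℤ)²`.  The function
`|cos u - cos v|` does not increase along orbits, and it decreases strictly at each point outside
`{cos u = cos v}` and outside the fixed points; on the two invariant circles `{v = u}`, `{v = -u}`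
the dynamics is source-sink.  So the recurrent points are the four fixed points, two of which are
saddles and two of which are sources.
-/

set_option autoImplicit false

open MeasureTheory Filter Topology Function
open scoped Manifold ContDiff

namespace Pool.Agent.Results.MP_794bd6_an.TorusStrictH27

noncomputable section

/-- The circle `ℝ / 2πℤ`. -/
abbrev S1 : Type := AddCircle (2 * Real.pi)

/-- The torus `(ℝ / 2πℤ)²`. -/
abbrev T2 : Type := S1 × S1

/-- The covering map of the torus by the Euclidean plane `ℂ`,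
`u + i v ↦ (u mod 2π, v mod 2π)`. -/
def proj (z : ℂ) : T2 := ((z.re : S1), (z.im : S1))

/-- A `C^∞` diffeomorphism of the torus: a homeomorphism of the torus together with a lift to the
plane which is a `C^∞` diffeomorphism of the plane. -/
structure TorusDiffeo where
  /-- the homeomorphism of the torus -/
  map : T2 ≃ₜ T2
  /-- the lift to the plane -/
  lift : ℂ ≃ₘ^∞⟮𝓘(ℝ, ℂ), 𝓘(ℝ, ℂ)⟯ ℂ
  /-- `lift` is a lift of `map` -/
  comm : ∀ z, proj (lift z) = map (proj z)

/-- The norm of the map induced by `T_x f^n` on the exterior algebra `Λ⁰ ⊕ Λ¹ ⊕ Λ²` of `T_x M`,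
at the point `x = proj z` of the torus with its flat metric.  Here `T_x f^n` is the derivative at
`z` of the `n`-th iterate of the lift, and the three summands give `1`, the operator norm, and the
absolute value of the determinant. -/
def growth (f : TorusDiffeo) (n : ℕ) (z : ℂ) : ℝ :=
  max 1 (max ‖fderiv ℝ (f.lift : ℂ → ℂ)^[n] z‖ |(fderiv ℝ (f.lift : ℂ → ℂ)^[n] z).det|)

/-- `χ` is (`ρ`-almost everywhere) the sum `χ₊` of the positive Lyapunov exponents:
`χ x = lim (1/n) log ‖Λ T_x f^n‖`. -/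
def IsChiPlus (f : TorusDiffeo) (ρ : Measure T2) (χ : T2 → ℝ) : Prop :=
  ∀ᵐ x ∂ρ, ∀ z, proj z = x →
    Tendsto (fun n : ℕ => Real.log (growth f n z) / n) atTop (𝓝 (χ x))

/-- The Shannon entropy (with respect to `ρ`) of the finite partition given by a map `η`. -/
def partEntropy (ρ : Measure T2) {ι : Type} [Fintype ι] (η : T2 → ι) : ℝ :=
  ∑ i, Real.negMulLog (ρ.real (η ⁻¹' {i}))

/-- The Kolmogorov-Sinai entropy: the supremum over the finite measurable partitions `ξ` of
`limsup (1/n) H(ξ ∨ f⁻¹ ξ ∨ ⋯ ∨ f^{-(n-1)} ξ)`. -/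
def entropy (f : T2 → T2) (ρ : Measure T2) : EReal :=
  ⨆ (k : ℕ) (ξ : T2 → Fin k) (_ : Measurable ξ),
    limsup (fun n : ℕ => ((partEntropy ρ (fun x (i : Fin n) => ξ (f^[i] x)) / n : ℝ) : EReal))
      atTop

/-! ### Real inequalities -/

theorem aux1 {a b : ℝ} (hb : 0 ≤ b) (hab : b ≤ a) :
    |a * Real.sin b - b * Real.sin a| ≤ a * b * (a ^ 2 - b ^ 2) / 4 := by
  rcases hb.eq_or_lt with h0 | h0
  · subst h0
    simp
  have hsb : Real.sin b ≤ b := Real.sin_le hb
  have hsb' : b - b ^ 3 / 6 ≤ Real.sin b := (Real.sin_gt_sub_cube h0).le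
  rw [abs_le]
  constructor
  · -- a sin b - b sin a + a b (a² - b²)/4 ≥ 0
    have hmono : MonotoneOn (fun x : ℝ => x * Real.sin b - b * Real.sin x
        + x * b * (x ^ 2 - b ^ 2) / 4) (Set.Icc b a) := by
      apply monotoneOn_of_deriv_nonneg (convex_Icc b a)
      · fun_prop
      · fun_prop
      · intro x hx
        rw [interior_Icc] at hx
        have hd : HasDerivAt (fun x : ℝ => x * Real.sin b - b * Real.sin x
            + x * b * (x ^ 2 - b ^ 2) / 4)
            (Real.sin b - b * Real.cos x + b * (3 * x ^ 2 - b ^ 2) / 4) x := by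
          have h1 := (hasDerivAt_id' x).mul_const (Real.sin b)
          have h2 := (Real.hasDerivAt_sin x).const_mul b
          have h3 := (((hasDerivAt_id' x).mul_const b).fun_mul
            (((hasDerivAt_id' x).fun_pow 2).sub_const (b ^ 2))).div_const 4
          refine ((h1.fun_sub h2).fun_add h3).congr_deriv ?_
          norm_num
          ring
        rw [hd.deriv]
        have hc : Real.cos x ≤ 1 := Real.cos_le_one x
        have hx1 : b ^ 2 ≤ x ^ 2 := by nlinarith [hx.1]
        nlinarith [mul_nonneg hb (sub_nonneg.2 hx1), mul_le_mul_of_nonneg_left hc hb,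
          mul_nonneg hb (sq_nonneg b)]
    have := hmono (Set.left_mem_Icc.2 hab) (Set.right_mem_Icc.2 hab) hab
    simp only [sub_self, mul_zero, zero_div, add_zero] at this
    linarith
  · have hmono : MonotoneOn (fun x : ℝ => x * b * (x ^ 2 - b ^ 2) / 4 - (x * Real.sin b
        - b * Real.sin x)) (Set.Icc b a) := by
      apply monotoneOn_of_deriv_nonneg (convex_Icc b a)
      · fun_prop
      · fun_prop
      · intro x hx
        rw [interior_Icc] at hx
        have hd : HasDerivAt (fun x : ℝ => x * b * (x ^ 2 - b ^ 2) / 4 - (x * Real.sin b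
            - b * Real.sin x))
            (b * (3 * x ^ 2 - b ^ 2) / 4 - (Real.sin b - b * Real.cos x)) x := by
          have h1 := (hasDerivAt_id' x).mul_const (Real.sin b)
          have h2 := (Real.hasDerivAt_sin x).const_mul b
          have h3 := (((hasDerivAt_id' x).mul_const b).fun_mul
            (((hasDerivAt_id' x).fun_pow 2).sub_const (b ^ 2))).div_const 4
          refine (h3.fun_sub (h1.fun_sub h2)).congr_deriv ?_
          norm_num
          ring
        rw [hd.deriv]
        have hc : 1 - x ^ 2 / 2 ≤ Real.cos x := Real.one_sub_sq_div_two_le_cos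
        have hx1 : b ^ 2 ≤ x ^ 2 := by nlinarith [hx.1]
        nlinarith [mul_nonneg hb (sub_nonneg.2 hx1), mul_le_mul_of_nonneg_left hc hb]
    have := hmono (Set.left_mem_Icc.2 hab) (Set.right_mem_Icc.2 hab) hab
    simp only [sub_self, mul_zero, zero_div] at this
    linarith

theorem aux1' (a b : ℝ) :
    |a * Real.sin b - b * Real.sin a| ≤ |a * b| * |a ^ 2 - b ^ 2| / 4 := by
  -- reduce to nonnegative a, b
  have key : ∀ x y : ℝ, 0 ≤ x → 0 ≤ y →
      |x * Real.sin y - y * Real.sin x| ≤ x * y * |x ^ 2 - y ^ 2| / 4 := by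
    intro x y hx hy
    rcases le_total y x with h | h
    · have := aux1 hy h
      rwa [abs_of_nonneg (by nlinarith : (0 : ℝ) ≤ x ^ 2 - y ^ 2)]
    · have := aux1 hx h
      rw [abs_sub_comm, abs_sub_comm (x ^ 2)]
      rw [abs_of_nonneg (by nlinarith : (0 : ℝ) ≤ y ^ 2 - x ^ 2)]
      linarith [this, mul_comm x y]
  have h := key |a| |b| (abs_nonneg a) (abs_nonneg b)
  rw [sq_abs, sq_abs, ← abs_mul] at h
  refine le_trans (le_of_eq ?_) h
  rcases le_total 0 a with h1 | h1 <;> rcases le_total 0 b with h2 | h2 <;>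
    simp only [abs_of_nonneg, abs_of_nonpos, h1, h2, Real.sin_neg] 
  · rw [← abs_neg]; congr 1; ring
  · rw [← abs_neg]; congr 1; ring
  · congr 1; ring

theorem aux2 {a b : ℝ} (ha : |a| ≤ 1) (hb : |b| ≤ 1) :
    (Real.cos a - Real.cos b) * (a ^ 2 - b ^ 2) ≤ 0 := by
  have hpi : (1 : ℝ) ≤ Real.pi := by linarith [Real.pi_gt_three]
  rcases le_total |a| |b| with h | h
  · have h1 : Real.cos |b| ≤ Real.cos |a| :=
      Real.cos_le_cos_of_nonneg_of_le_pi (abs_nonneg a) (hb.trans hpi) h
    rw [Real.cos_abs, Real.cos_abs] at h1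
    have h2 : a ^ 2 ≤ b ^ 2 := sq_le_sq.2 h
    nlinarith
  · have h1 : Real.cos |a| ≤ Real.cos |b| :=
      Real.cos_le_cos_of_nonneg_of_le_pi (abs_nonneg b) (ha.trans hpi) h
    rw [Real.cos_abs, Real.cos_abs] at h1
    have h2 : b ^ 2 ≤ a ^ 2 := sq_le_sq.2 h
    nlinarith

theorem aux2' (a b : ℝ) : |Real.cos a - Real.cos b| ≤ |a ^ 2 - b ^ 2| / 2 := by
  rw [Real.cos_sub_cos, abs_mul, abs_mul]
  have h1 : |Real.sin ((a + b) / 2)| ≤ |(a + b) / 2| := Real.abs_sin_le_abs
  have h2 : |Real.sin ((a - b) / 2)| ≤ |(a - b) / 2| := Real.abs_sin_le_abs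
  have h3 : |a ^ 2 - b ^ 2| / 2 = 2 * (|(a + b) / 2| * |(a - b) / 2|) := by
    rw [← abs_mul, show a ^ 2 - b ^ 2 = 4 * ((a + b) / 2 * ((a - b) / 2)) by ring, abs_mul]
    rw [abs_of_nonneg (by norm_num : (0 : ℝ) ≤ 4)]
    ring
  rw [h3]
  have h4 : |(-2 : ℝ)| = 2 := by norm_num
  rw [h4, mul_assoc]
  gcongr

theorem aux3 {a : ℝ} (ha : |a| ≤ 1) : Real.cos a ≤ 1 - 43 / 96 * a ^ 2 := by
  have h := abs_le.1 (Real.cos_bound ha)
  have h4 : |a| ^ 4 ≤ a ^ 2 := by
    have : |a| ^ 4 = a ^ 2 * a ^ 2 := by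
      rw [show (4 : ℕ) = 2 * 2 by norm_num, pow_mul, sq_abs]; ring
    rw [this]
    have h1 : a ^ 2 ≤ 1 := by rw [← sq_abs]; nlinarith [abs_nonneg a]
    nlinarith [sq_nonneg a]
  nlinarith [h.2]

theorem aux4 {D E A X Y r : ℝ} (hD : D ≠ 0) (hr : 0 < r) (hr' : r ≤ 1 / 2)
    (hE : E = D * A + X + Y) (hA : A ≤ 1 - 43 / 192 * r) (hA' : 3 / 4 ≤ A)
    (hX : X * D ≤ 0) (hX' : -(D ^ 2 / 4) ≤ X * D) (hY : |Y * D| ≤ D ^ 2 * (r / 8)) :
    |E| < |D| := by
  obtain ⟨hY1, hY2⟩ := abs_le.1 hY
  have hDsq : 0 < D ^ 2 := by positivity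
  have hED : E * D = D ^ 2 * A + X * D + Y * D := by rw [hE]; ring
  have h1 : D ^ 2 * A ≤ D ^ 2 * (1 - 43 / 192 * r) := mul_le_mul_of_nonneg_left hA hDsq.le
  have h2 : D ^ 2 * (3 / 4) ≤ D ^ 2 * A := mul_le_mul_of_nonneg_left hA' hDsq.le
  have h3 : 0 < D ^ 2 * r := mul_pos hDsq hr
  have h4 : D ^ 2 * r ≤ D ^ 2 * (1 / 2) := mul_le_mul_of_nonneg_left hr' hDsq.le
  have up : E * D < D ^ 2 := by
    rw [hED]; nlinarith
  have lo : -D ^ 2 < E * D := by
    rw [hED]; nlinarith
  have habs : |E| * |D| < |D| * |D| := by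
    rw [← abs_mul, ← sq, sq_abs]
    exact abs_lt.2 ⟨by linarith, up⟩
  exact lt_of_mul_lt_mul_right habs (abs_nonneg D)

theorem aux5 {p q a b : ℝ} (hp : |p| ≤ 1) (hq : |q| ≤ 1)
    (hab : a ^ 2 - b ^ 2 = (p - q) * (p + q) / 4) (ha : |a| ≤ 1) (hb : |b| ≤ 1)
    (ha4 : a ^ 2 ≤ 1 / 4) (hb4 : b ^ 2 ≤ 1 / 4) (hpq : p ≠ q) (hpos : 0 < a ^ 2 + b ^ 2) :
    |(p - q) * ((Real.cos a + Real.cos b) / 2) + (p + q) * (Real.cos a - Real.cos b) / 2
        + 2 * (a * Real.sin b - b * Real.sin a)| < |p - q| := by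
  obtain ⟨hp2, hp3⟩ := abs_le.1 hp
  obtain ⟨hq2, hq3⟩ := abs_le.1 hq
  have hpq2 : |p + q| ≤ 2 := by
    rw [abs_le]; constructor <;> linarith
  have h6 : |(p - q) * (p + q) / 4| = |p - q| * |p + q| / 4 := by
    rw [abs_div, abs_mul, abs_of_pos (by norm_num : (0 : ℝ) < 4)]
  have h9 : |p - q| * |p - q| = (p - q) ^ 2 := by rw [← sq, sq_abs]
  refine aux4 (r := a ^ 2 + b ^ 2) (sub_ne_zero.2 hpq) hpos (by linarith) rfl ?_ ?_ ?_ ?_ ?_
  · linarith [aux3 ha, aux3 hb]
  · have h1 : 1 - a ^ 2 / 2 ≤ Real.cos a := Real.one_sub_sq_div_two_le_cos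
    have h2 : 1 - b ^ 2 / 2 ≤ Real.cos b := Real.one_sub_sq_div_two_le_cos
    linarith
  · have h := aux2 ha hb
    rw [hab] at h
    nlinarith
  · have h := aux2' a b
    rw [hab, h6] at h
    have h5 : |(p + q) * (Real.cos a - Real.cos b) / 2 * (p - q)| ≤ (p - q) ^ 2 / 4 := by
      rw [abs_mul, abs_div, abs_mul, abs_of_pos (by norm_num : (0 : ℝ) < 2)]
      have h8 : |p + q| * |p + q| ≤ 4 := by nlinarith [abs_nonneg (p + q)]
      calc |p + q| * |Real.cos a - Real.cos b| / 2 * |p - q|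
          ≤ |p + q| * (|p - q| * |p + q| / 4 / 2) / 2 * |p - q| := by gcongr
        _ = (|p + q| * |p + q|) * (|p - q| * |p - q|) / 16 := by ring
        _ ≤ 4 * (|p - q| * |p - q|) / 16 := by gcongr
        _ = (p - q) ^ 2 / 4 := by rw [h9]; ring
    exact (abs_le.1 h5).1
  · have h := aux1' a b
    rw [hab, h6] at h
    rw [abs_mul, abs_mul, abs_of_pos (by norm_num : (0 : ℝ) < 2)]
    have h7 : |a * b| ≤ (a ^ 2 + b ^ 2) / 2 := by
      rw [abs_le]; constructor <;> nlinarith [sq_nonneg (a + b), sq_nonneg (a - b)]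
    calc 2 * |a * Real.sin b - b * Real.sin a| * |p - q|
        ≤ 2 * (|a * b| * (|p - q| * |p + q| / 4) / 4) * |p - q| := by gcongr
      _ = |a * b| * |p + q| * (|p - q| * |p - q|) / 8 := by ring
      _ ≤ ((a ^ 2 + b ^ 2) / 2) * 2 * (|p - q| * |p - q|) / 8 := by gcongr
      _ = (p - q) ^ 2 * ((a ^ 2 + b ^ 2) / 8) := by rw [h9]; ring

/-- The main inequality. -/
theorem key_ineq (u v : ℝ) (hne : Real.cos u ≠ Real.cos v)
    (hfix : ¬ (Real.sin u = 0 ∧ Real.sin v = 0)) :
    |Real.cos (u + Real.sin v / 2) - Real.cos (v + Real.sin u / 2)| <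
      |Real.cos u - Real.cos v| := by
  have hsu : Real.sin u ^ 2 = 1 - Real.cos u ^ 2 := by
    rw [← Real.sin_sq_add_cos_sq u]; ring
  have hsv : Real.sin v ^ 2 = 1 - Real.cos v ^ 2 := by
    rw [← Real.sin_sq_add_cos_sq v]; ring
  have half : ∀ x : ℝ, |Real.sin x / 2| ≤ 1 := by
    intro x
    rw [abs_div, abs_of_pos (by norm_num : (0 : ℝ) < 2)]
    linarith [Real.abs_sin_le_one x]
  have hE : Real.cos (u + Real.sin v / 2) - Real.cos (v + Real.sin u / 2) =
      (Real.cos u - Real.cos v) * ((Real.cos (Real.sin v / 2) + Real.cos (Real.sin u / 2)) / 2)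
        + (Real.cos u + Real.cos v) * (Real.cos (Real.sin v / 2) - Real.cos (Real.sin u / 2)) / 2
        + 2 * (Real.sin v / 2 * Real.sin (Real.sin u / 2)
          - Real.sin u / 2 * Real.sin (Real.sin v / 2)) := by
    rw [Real.cos_add, Real.cos_add]
    ring
  rw [hE]
  apply aux5 (Real.abs_cos_le_one u) (Real.abs_cos_le_one v) _ (half v) (half u) _ _ hne
  · rcases not_and_or.1 hfix with h | h <;> positivity
  · rw [div_pow, div_pow, hsu, hsv]; ring
  · rw [div_pow, hsv]; nlinarith [sq_nonneg (Real.cos v)]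
  · rw [div_pow, hsu]; nlinarith [sq_nonneg (Real.cos u)]

theorem aux6 {b : ℝ} (hb : b ≠ 0) (hb1 : |b| ≤ 1 / 2) : 1 - Real.cos b < 2 * b * Real.sin b := by
  have h1 : 1 - b ^ 2 / 2 ≤ Real.cos b := Real.one_sub_sq_div_two_le_cos
  have hpos : 0 < |b| := abs_pos.2 hb
  have h2 : |b| - |b| ^ 3 / 6 < Real.sin |b| := Real.sin_gt_sub_cube hpos
  have h3 : b * Real.sin b = |b| * Real.sin |b| := by
    rcases le_total 0 b with h | h
    · rw [abs_of_nonneg h]
    · rw [abs_of_nonpos h, Real.sin_neg]; ring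
  have h4 : |b| * (|b| - |b| ^ 3 / 6) < |b| * Real.sin |b| := mul_lt_mul_of_pos_left h2 hpos
  have h5 : b ^ 2 = |b| ^ 2 := (sq_abs b).symm
  have h6 : |b| ^ 2 ≤ 1 / 4 := by nlinarith
  have h7 : 0 < |b| ^ 2 := by positivity
  rw [mul_assoc, h3]
  nlinarith [mul_le_mul_of_nonneg_left h6 h7.le]

theorem cos_plus_lt {u : ℝ} (hu : Real.sin u ≠ 0) : Real.cos (u + Real.sin u / 2) < Real.cos u := by
  have hb : Real.sin u / 2 ≠ 0 := div_ne_zero hu (by norm_num)
  have hb1 : |Real.sin u / 2| ≤ 1 / 2 := by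
    rw [abs_div, abs_of_pos (by norm_num : (0 : ℝ) < 2)]
    linarith [Real.abs_sin_le_one u]
  have h := aux6 hb hb1
  have hc : 0 ≤ 1 - Real.cos (Real.sin u / 2) := by linarith [Real.cos_le_one (Real.sin u / 2)]
  have hc' : -1 ≤ Real.cos u := Real.neg_one_le_cos u
  rw [Real.cos_add]
  nlinarith

theorem cos_lt_minus {u : ℝ} (hu : Real.sin u ≠ 0) : Real.cos u < Real.cos (u - Real.sin u / 2) := by
  have hb : Real.sin u / 2 ≠ 0 := div_ne_zero hu (by norm_num)
  have hb1 : |Real.sin u / 2| ≤ 1 / 2 := by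
    rw [abs_div, abs_of_pos (by norm_num : (0 : ℝ) < 2)]
    linarith [Real.abs_sin_le_one u]
  have h := aux6 hb hb1
  have hc : 0 ≤ 1 - Real.cos (Real.sin u / 2) := by linarith [Real.cos_le_one (Real.sin u / 2)]
  have hc' : Real.cos u ≤ 1 := Real.cos_le_one u
  rw [Real.cos_sub]
  nlinarith

/-! ### The lift -/

/-- The lift `u + i v ↦ (u + sin v / 2) + i (v + sin u / 2)`. -/
def F (z : ℂ) : ℂ := z + (Real.sin z.im / 2) • (1 : ℂ) + (Real.sin z.re / 2) • Complex.I

theorem F_re (z : ℂ) : (F z).re = z.re + Real.sin z.im / 2 := by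
  simp only [F, Complex.add_re, Complex.smul_re, Complex.one_re, Complex.I_re, smul_eq_mul,
    mul_one, mul_zero, add_zero]

theorem F_im (z : ℂ) : (F z).im = z.im + Real.sin z.re / 2 := by
  simp only [F, Complex.add_im, Complex.smul_im, Complex.one_im, Complex.I_im, smul_eq_mul,
    mul_one, mul_zero, add_zero]

/-- the derivative of the lift -/
def A (z : ℂ) : ℂ →L[ℝ] ℂ :=
  ContinuousLinearMap.id ℝ ℂ + ((Real.cos z.im / 2) • Complex.imCLM).smulRight (1 : ℂ) +
    ((Real.cos z.re / 2) • Complex.reCLM).smulRight Complex.I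

theorem A_apply (z w : ℂ) : A z w = w + (Real.cos z.im / 2 * w.im) • (1 : ℂ) +
    (Real.cos z.re / 2 * w.re) • Complex.I := rfl

theorem A_re (z w : ℂ) : (A z w).re = w.re + Real.cos z.im / 2 * w.im := by
  simp only [A_apply, Complex.add_re, Complex.smul_re, Complex.one_re, Complex.I_re, smul_eq_mul,
    mul_one, mul_zero, add_zero]

theorem A_im (z w : ℂ) : (A z w).im = w.im + Real.cos z.re / 2 * w.re := by
  simp only [A_apply, Complex.add_im, Complex.smul_im, Complex.one_im, Complex.I_im, smul_eq_mul,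
    mul_one, mul_zero, add_zero]

theorem hasFDerivAt_F (z : ℂ) : HasFDerivAt F (A z) z := by
  have h1 : HasFDerivAt (fun z : ℂ => Real.sin z.im / 2) ((Real.cos z.im / 2) • Complex.imCLM) z := by
    have h0 : HasFDerivAt (fun z : ℂ => Real.sin z.im) (Real.cos z.im • Complex.imCLM) z :=
      (Real.hasDerivAt_sin z.im).comp_hasFDerivAt z Complex.imCLM.hasFDerivAt
    refine ((h0.mul_const (1 / 2 : ℝ)).congr_fderiv ?_).congr_of_eventuallyEq
      (Eventually.of_forall fun w => by simp only []; ring)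
    rw [smul_smul]
    congr 1
    ring
  have h2 : HasFDerivAt (fun z : ℂ => Real.sin z.re / 2) ((Real.cos z.re / 2) • Complex.reCLM) z := by
    have h0 : HasFDerivAt (fun z : ℂ => Real.sin z.re) (Real.cos z.re • Complex.reCLM) z :=
      (Real.hasDerivAt_sin z.re).comp_hasFDerivAt z Complex.reCLM.hasFDerivAt
    refine ((h0.mul_const (1 / 2 : ℝ)).congr_fderiv ?_).congr_of_eventuallyEq
      (Eventually.of_forall fun w => by simp only []; ring)
    rw [smul_smul]
    congr 1
    ring
  exact ((hasFDerivAt_id z).add (h1.smul_const (1 : ℂ))).add (h2.smul_const Complex.I)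

theorem contDiff_F : ContDiff ℝ ∞ F := by
  unfold F
  have h1 : ContDiff ℝ ∞ (fun z : ℂ => Real.sin z.im / 2) :=
    (Real.contDiff_sin.comp Complex.imCLM.contDiff).div_const 2
  have h2 : ContDiff ℝ ∞ (fun z : ℂ => Real.sin z.re / 2) :=
    (Real.contDiff_sin.comp Complex.reCLM.contDiff).div_const 2
  exact (contDiff_id.add (h1.smul contDiff_const)).add (h2.smul contDiff_const)

theorem approx_F : ApproximatesLinearOn F ((ContinuousLinearEquiv.refl ℝ ℂ : ℂ ≃L[ℝ] ℂ) : ℂ →L[ℝ] ℂ)
    Set.univ (1 / 2) := by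
  intro x _ y _
  have hs : ∀ a b : ℝ, (Real.sin a - Real.sin b) ^ 2 ≤ (a - b) ^ 2 := by
    intro a b
    have h := Real.lipschitzWith_sin.dist_le_mul a b
    rw [Real.dist_eq, Real.dist_eq] at h
    simp only [NNReal.coe_one, one_mul] at h
    rw [← sq_abs, ← sq_abs (a - b)]
    exact pow_le_pow_left₀ (abs_nonneg _) h 2
  have h1 : ‖F x - F y - (x - y)‖ ^ 2 ≤ (1 / 2 * ‖x - y‖) ^ 2 := by
    rw [mul_pow, ← Complex.normSq_eq_norm_sq, ← Complex.normSq_eq_norm_sq, Complex.normSq_apply,
      Complex.normSq_apply]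
    simp only [Complex.sub_re, Complex.sub_im, F_re, F_im]
    have h2 := hs x.im y.im
    have h3 := hs x.re y.re
    nlinarith
  have h4 := abs_le_of_sq_le_sq h1 (by positivity)
  have h5 := (abs_le.1 h4).2
  simpa using h5

/-- the lift as a homeomorphism of the plane -/
def Fhomeo : ℂ ≃ₜ ℂ :=
  approx_F.toHomeomorph F (Or.inr (by
    have : ‖(((ContinuousLinearEquiv.refl ℝ ℂ : ℂ ≃L[ℝ] ℂ).symm : ℂ →L[ℝ] ℂ))‖₊ = 1 := by
      apply NNReal.eq
      simp
    rw [this]
    norm_num))

theorem Fhomeo_apply (z : ℂ) : Fhomeo z = F z := rfl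

theorem A_injective (z : ℂ) : Injective (A z) := by
  rw [injective_iff_map_eq_zero]
  intro w hw
  have h1 := congrArg Complex.re hw
  have h2 := congrArg Complex.im hw
  rw [A_re, Complex.zero_re] at h1
  rw [A_im, Complex.zero_im] at h2
  have hα := abs_le.1 (Real.abs_cos_le_one z.im)
  have hβ := abs_le.1 (Real.abs_cos_le_one z.re)
  have h3 : w.re * (1 - Real.cos z.im * Real.cos z.re / 4) = 0 := by
    have : w.im = - (Real.cos z.re / 2 * w.re) := by linarith
    rw [this] at h1
    linarith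
  have h4 : 0 < 1 - Real.cos z.im * Real.cos z.re / 4 := by nlinarith
  have h5 : w.re = 0 := by
    rcases mul_eq_zero.1 h3 with h | h
    · exact h
    · exact absurd h h4.ne'
  have h6 : w.im = 0 := by rw [h5] at h2; linarith
  exact Complex.ext h5 h6

/-- the derivative as an equivalence -/
def Aequiv (z : ℂ) : ℂ ≃L[ℝ] ℂ :=
  (LinearEquiv.ofInjectiveEndo (A z : ℂ →ₗ[ℝ] ℂ) (A_injective z)).toContinuousLinearEquiv

theorem Aequiv_coe (z : ℂ) : (Aequiv z : ℂ →L[ℝ] ℂ) = A z := by
  ext w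
  rfl

/-- the lift as a diffeomorphism of the plane -/
def Fdiffeo : ℂ ≃ₘ^∞⟮𝓘(ℝ, ℂ), 𝓘(ℝ, ℂ)⟯ ℂ where
  toEquiv := Fhomeo.toEquiv
  contMDiff_toFun := contDiff_F.contMDiff
  contMDiff_invFun := (Fhomeo.contDiff_symm (f₀' := Aequiv)
    (fun a => by rw [Aequiv_coe]; exact hasFDerivAt_F a) contDiff_F).contMDiff

theorem Fdiffeo_apply (z : ℂ) : Fdiffeo z = F z := rfl

/-! ### The torus map -/

instance fact_two_pi : Fact (0 < 2 * Real.pi) := ⟨Real.two_pi_pos⟩

/-- sine on the circle -/
def sinS : S1 → ℝ := Real.sin_periodic.lift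

/-- cosine on the circle -/
def cosS : S1 → ℝ := Real.cos_periodic.lift

theorem sinS_coe (r : ℝ) : sinS (r : S1) = Real.sin r := Real.sin_periodic.lift_coe r

theorem cosS_coe (r : ℝ) : cosS (r : S1) = Real.cos r := Real.cos_periodic.lift_coe r

theorem continuous_sinS : Continuous sinS :=
  continuous_quot_lift _ Real.continuous_sin

theorem continuous_cosS : Continuous cosS :=
  continuous_quot_lift _ Real.continuous_cos

/-- the map `(u, v) ↦ (u + sin v / 2, v + sin u / 2)` of the torus -/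
def M (x : T2) : T2 := (x.1 + ((sinS x.2 / 2 : ℝ) : S1), x.2 + ((sinS x.1 / 2 : ℝ) : S1))

theorem continuous_M : Continuous M := by
  have h : Continuous (fun r : ℝ => (r : S1)) := AddCircle.continuous_mk' _
  unfold M
  exact (continuous_fst.add (h.comp ((continuous_sinS.comp continuous_snd).div_const 2))).prodMk
    (continuous_snd.add (h.comp ((continuous_sinS.comp continuous_fst).div_const 2)))

theorem proj_F (z : ℂ) : proj (F z) = M (proj z) := by
  unfold proj M
  simp only [F_re, F_im, sinS_coe, AddCircle.coe_add]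

theorem proj_surj (x : T2) : ∃ z, proj z = x := by
  obtain ⟨u, v⟩ := x
  obtain ⟨a, rfl⟩ := QuotientAddGroup.mk_surjective u
  obtain ⟨b, rfl⟩ := QuotientAddGroup.mk_surjective v
  exact ⟨⟨a, b⟩, rfl⟩

theorem proj_eq_iff (z w : ℂ) : proj z = proj w ↔
    ∃ k l : ℤ, z.re = w.re + k * (2 * Real.pi) ∧ z.im = w.im + l * (2 * Real.pi) := by
  have key : ∀ a b : ℝ, (a : S1) = (b : S1) ↔ ∃ k : ℤ, a = b + k * (2 * Real.pi) := by
    intro a b
    rw [eq_comm, QuotientAddGroup.eq, AddSubgroup.mem_zmultiples_iff]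
    constructor
    · rintro ⟨k, hk⟩
      refine ⟨k, ?_⟩
      rw [zsmul_eq_mul] at hk
      linarith
    · rintro ⟨k, hk⟩
      refine ⟨k, ?_⟩
      rw [zsmul_eq_mul]
      linarith
  unfold proj
  rw [Prod.mk.injEq, key, key]
  constructor
  · rintro ⟨⟨k, hk⟩, ⟨l, hl⟩⟩
    exact ⟨k, l, hk, hl⟩
  · rintro ⟨k, l, hk, hl⟩
    exact ⟨⟨k, hk⟩, ⟨l, hl⟩⟩

theorem M_bijective : Bijective M := by
  constructor
  · intro x y hxy
    obtain ⟨z, rfl⟩ := proj_surj x
    obtain ⟨w, rfl⟩ := proj_surj y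
    rw [← proj_F, ← proj_F, proj_eq_iff] at hxy
    obtain ⟨k, l, hk, hl⟩ := hxy
    rw [F_re, F_re] at hk
    rw [F_im, F_im] at hl
    set w' : ℂ := ⟨w.re + k * (2 * Real.pi), w.im + l * (2 * Real.pi)⟩ with hw'
    have h1 : F z = F w' := by
      apply Complex.ext
      · rw [F_re, F_re]
        show _ = (w.re + k * (2 * Real.pi)) + Real.sin (w.im + l * (2 * Real.pi)) / 2
        rw [Real.sin_add_int_mul_two_pi]
        linarith
      · rw [F_im, F_im]
        show _ = (w.im + l * (2 * Real.pi)) + Real.sin (w.re + k * (2 * Real.pi)) / 2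
        rw [Real.sin_add_int_mul_two_pi]
        linarith
    have h2 : z = w' := Fhomeo.injective h1
    rw [proj_eq_iff]
    exact ⟨k, l, by rw [h2], by rw [h2]⟩
  · intro y
    obtain ⟨w, rfl⟩ := proj_surj y
    refine ⟨proj (Fhomeo.symm w), ?_⟩
    rw [← proj_F, ← Fhomeo_apply, Homeomorph.apply_symm_apply]

/-- the torus map as a homeomorphism -/
def Mhomeo : T2 ≃ₜ T2 :=
  Continuous.homeoOfEquivCompactToT2 (f := Equiv.ofBijective M M_bijective) continuous_M

theorem Mhomeo_apply (x : T2) : Mhomeo x = M x := rfl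

/-- the example -/
def ex : TorusDiffeo where
  map := Mhomeo
  lift := Fdiffeo
  comm z := proj_F z

/-! ### Recurrent points -/

/-- recurrence of a point -/
def Rec (x : T2) : Prop := ∀ s ∈ 𝓝 x, ∃ᶠ n : ℕ in atTop, M^[n] x ∈ s

theorem not_rec {V : T2 → ℝ} (hV : Continuous V) {Y : Set T2} (hY : ∀ y ∈ Y, M y ∈ Y)
    (hle : ∀ y ∈ Y, V (M y) ≤ V y) {x : T2} (hx : x ∈ Y) (hlt : V (M x) < V x) : ¬ Rec x := by
  intro hrec
  have hs : {y | V (M x) < V y} ∈ 𝓝 x := (isOpen_lt continuous_const hV).mem_nhds hlt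
  have hmem : ∀ n : ℕ, M^[n] x ∈ Y := by
    intro n
    induction n with
    | zero => exact hx
    | succ n ih => rw [iterate_succ_apply']; exact hY _ ih
  have hn : ∀ n : ℕ, V (M^[n + 1] x) ≤ V (M x) := by
    intro n
    induction n with
    | zero => exact le_of_eq rfl
    | succ n ih =>
      rw [iterate_succ_apply']
      exact (hle _ (hmem _)).trans ih
  obtain ⟨n, hn1, hn2⟩ := (hrec _ hs).forall_exists_of_atTop 1
  obtain ⟨m, rfl⟩ : ∃ m, n = m + 1 := ⟨n - 1, by omega⟩
  exact absurd (hn m) (not_le.2 hn2)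

theorem cosS_M (z : ℂ) : cosS (M (proj z)).1 = Real.cos (z.re + Real.sin z.im / 2) ∧
    cosS (M (proj z)).2 = Real.cos (z.im + Real.sin z.re / 2) ∧
    sinS (M (proj z)).1 = Real.sin (z.re + Real.sin z.im / 2) ∧
    sinS (M (proj z)).2 = Real.sin (z.im + Real.sin z.re / 2) := by
  rw [← proj_F]
  unfold proj
  simp only [cosS_coe, sinS_coe, F_re, F_im, and_self]

theorem sin_eq_or {u v : ℝ} (h : Real.cos u = Real.cos v) :
    Real.sin v = Real.sin u ∨ Real.sin v = - Real.sin u := by
  have h1 := Real.sin_sq_add_cos_sq u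
  have h2 := Real.sin_sq_add_cos_sq v
  rw [← h] at h2
  have h3 : (Real.sin v - Real.sin u) * (Real.sin v + Real.sin u) = 0 := by nlinarith
  rcases mul_eq_zero.1 h3 with h4 | h4
  · left; linarith
  · right; linarith

theorem abs_le_step (u v : ℝ) :
    |Real.cos (u + Real.sin v / 2) - Real.cos (v + Real.sin u / 2)| ≤
      |Real.cos u - Real.cos v| := by
  by_cases h : Real.cos u = Real.cos v
  · have : Real.cos (u + Real.sin v / 2) = Real.cos (v + Real.sin u / 2) := by
      rcases sin_eq_or h with h1 | h1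
      · rw [h1, Real.cos_add, Real.cos_add, h, h1]
      · rw [h1, Real.cos_add, Real.cos_add, h, h1, neg_div, Real.cos_neg, Real.sin_neg]
        ring
    rw [this, h, sub_self, sub_self]
  · by_cases h2 : Real.sin u = 0 ∧ Real.sin v = 0
    · rw [h2.1, h2.2]
      simp
    · exact (key_ineq u v h h2).le

theorem rec_fixed {x : T2} (hx : Rec x) : sinS x.1 = 0 ∧ sinS x.2 = 0 := by
  by_contra hne
  obtain ⟨z, rfl⟩ := proj_surj x
  have e1 : sinS (proj z).1 = Real.sin z.re := sinS_coe _
  have e2 : sinS (proj z).2 = Real.sin z.im := sinS_coe _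
  rw [e1, e2] at hne
  by_cases h : Real.cos z.re = Real.cos z.im
  · rcases sin_eq_or h with h1 | h1
    · -- the circle `v = u`
      have hs : Real.sin z.re ≠ 0 := by
        intro h0
        exact hne ⟨h0, by rw [h1, h0]⟩
      refine not_rec (V := fun y => cosS y.1) (continuous_cosS.comp continuous_fst)
        (Y := {y | cosS y.1 = cosS y.2 ∧ sinS y.2 = sinS y.1}) ?_ ?_ (x := proj z) ?_ ?_ hx
      · rintro y ⟨hy1, hy2⟩
        obtain ⟨w, rfl⟩ := proj_surj y
        obtain ⟨c1, c2, c3, c4⟩ := cosS_M w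
        have d1 : Real.cos w.re = Real.cos w.im := by
          simpa only [proj, cosS_coe] using hy1
        have d2 : Real.sin w.im = Real.sin w.re := by
          simpa only [proj, sinS_coe] using hy2
        refine ⟨?_, ?_⟩
        · rw [c1, c2, d2, Real.cos_add, Real.cos_add, d1, d2]
        · rw [c3, c4, d2, Real.sin_add, Real.sin_add, d1, d2]
      · rintro y ⟨hy1, hy2⟩
        obtain ⟨w, rfl⟩ := proj_surj y
        obtain ⟨c1, c2, c3, c4⟩ := cosS_M w
        have d2 : Real.sin w.im = Real.sin w.re := by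
          simpa only [proj, sinS_coe] using hy2
        show cosS (M (proj w)).1 ≤ cosS (proj w).1
        rw [c1, d2]
        show _ ≤ cosS ((w.re : ℝ) : S1)
        rw [cosS_coe]
        by_cases h0 : Real.sin w.re = 0
        · rw [h0]; simp
        · exact (cos_plus_lt h0).le
      · refine ⟨?_, ?_⟩
        · simpa only [proj, cosS_coe] using h
        · simpa only [proj, sinS_coe] using h1
      · obtain ⟨c1, c2, c3, c4⟩ := cosS_M z
        show cosS (M (proj z)).1 < cosS (proj z).1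
        rw [c1, h1]
        show _ < cosS ((z.re : ℝ) : S1)
        rw [cosS_coe]
        exact cos_plus_lt hs
    · -- the circle `v = -u`
      have hs : Real.sin z.re ≠ 0 := by
        intro h0
        exact hne ⟨h0, by rw [h1, h0, neg_zero]⟩
      refine not_rec (V := fun y => - cosS y.1) (continuous_cosS.comp continuous_fst).neg
        (Y := {y | cosS y.1 = cosS y.2 ∧ sinS y.2 = - sinS y.1}) ?_ ?_ (x := proj z) ?_ ?_ hx
      · rintro y ⟨hy1, hy2⟩
        obtain ⟨w, rfl⟩ := proj_surj y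
        obtain ⟨c1, c2, c3, c4⟩ := cosS_M w
        have d1 : Real.cos w.re = Real.cos w.im := by
          simpa only [proj, cosS_coe] using hy1
        have d2 : Real.sin w.im = - Real.sin w.re := by
          simpa only [proj, sinS_coe] using hy2
        refine ⟨?_, ?_⟩
        · rw [c1, c2, d2, Real.cos_add, Real.cos_add, d1, d2, neg_div, Real.cos_neg, Real.sin_neg]
          ring
        · rw [c3, c4, d2, Real.sin_add, Real.sin_add, d1, d2, neg_div, Real.cos_neg, Real.sin_neg]
          ring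
      · rintro y ⟨hy1, hy2⟩
        obtain ⟨w, rfl⟩ := proj_surj y
        obtain ⟨c1, c2, c3, c4⟩ := cosS_M w
        have d2 : Real.sin w.im = - Real.sin w.re := by
          simpa only [proj, sinS_coe] using hy2
        show - cosS (M (proj w)).1 ≤ - cosS (proj w).1
        rw [c1, d2]
        show _ ≤ - cosS ((w.re : ℝ) : S1)
        rw [cosS_coe, neg_div, ← sub_eq_add_neg]
        by_cases h0 : Real.sin w.re = 0
        · rw [h0]; simp
        · exact (neg_lt_neg (cos_lt_minus h0)).le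
      · refine ⟨?_, ?_⟩
        · simpa only [proj, cosS_coe] using h
        · simpa only [proj, sinS_coe] using h1
      · obtain ⟨c1, c2, c3, c4⟩ := cosS_M z
        show - cosS (M (proj z)).1 < - cosS (proj z).1
        rw [c1, h1]
        show _ < - cosS ((z.re : ℝ) : S1)
        rw [cosS_coe, neg_div, ← sub_eq_add_neg]
        exact neg_lt_neg (cos_lt_minus hs)
  · refine not_rec (V := fun y => |cosS y.1 - cosS y.2|)
      ((continuous_cosS.comp continuous_fst).sub (continuous_cosS.comp continuous_snd)).abs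
      (Y := Set.univ) (fun y _ => Set.mem_univ _) ?_ (x := proj z) (Set.mem_univ _) ?_ hx
    · rintro y -
      obtain ⟨w, rfl⟩ := proj_surj y
      obtain ⟨c1, c2, c3, c4⟩ := cosS_M w
      show |cosS (M (proj w)).1 - cosS (M (proj w)).2| ≤ |cosS ((w.re : ℝ) : S1) - cosS ((w.im : ℝ) : S1)|
      rw [c1, c2, cosS_coe, cosS_coe]
      exact abs_le_step _ _
    · obtain ⟨c1, c2, c3, c4⟩ := cosS_M z
      show |cosS (M (proj z)).1 - cosS (M (proj z)).2| < |cosS ((z.re : ℝ) : S1) - cosS ((z.im : ℝ) : S1)|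
      rw [c1, c2, cosS_coe, cosS_coe]
      exact key_ineq _ _ h hne

theorem M_fixed {x : T2} (hx : sinS x.1 = 0 ∧ sinS x.2 = 0) : M x = x := by
  unfold M
  rw [hx.1, hx.2]
  simp

theorem ae_fixed (ρ : Measure T2) [IsProbabilityMeasure ρ] (h : MeasurePreserving M ρ ρ) :
    ∀ᵐ x ∂ρ, sinS x.1 = 0 ∧ sinS x.2 = 0 := by
  filter_upwards [h.conservative.ae_frequently_mem_of_mem_nhds] with x hx
  exact rec_fixed hx

/-! ### Growth of the derivative at the fixed points -/

theorem A_det (z : ℂ) : (A z).det = 1 - Real.cos z.im * Real.cos z.re / 4 := by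
  rw [ContinuousLinearMap.det, ← LinearMap.det_toMatrix Complex.basisOneI, Matrix.det_fin_two]
  simp only [LinearMap.toMatrix_apply, Complex.coe_basisOneI, Complex.coe_basisOneI_repr]
  simp only [Matrix.cons_val_zero, Matrix.cons_val_one, ContinuousLinearMap.coe_coe, A_re, A_im,
    Complex.one_re, Complex.one_im, Complex.I_re, Complex.I_im]
  ring

theorem A_norm_sq (z w : ℂ) : ‖A z w‖ ^ 2 =
    (w.re + Real.cos z.im / 2 * w.im) ^ 2 + (w.im + Real.cos z.re / 2 * w.re) ^ 2 := by
  rw [← Complex.normSq_eq_norm_sq, Complex.normSq_apply, A_re, A_im]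
  ring

theorem growth_eq {z : ℂ} (h1 : Real.sin z.re = 0) (h2 : Real.sin z.im = 0) (n : ℕ) :
    growth ex n z = max 1 (max ‖(A z) ^ n‖ |(A z).det ^ n|) := by
  have hfix : F z = z := by
    apply Complex.ext
    · rw [F_re, h2]; simp
    · rw [F_im, h1]; simp
  have h := (hasFDerivAt_F z).iterate hfix n
  have h' : fderiv ℝ (ex.lift : ℂ → ℂ)^[n] z = (A z) ^ n := h.fderiv
  unfold growth
  rw [h']
  have h3 : ((A z) ^ n).det = (A z).det ^ n := by
    rw [ContinuousLinearMap.det, ContinuousLinearMap.det, ContinuousLinearMap.toLinearMap_pow, map_pow]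
  rw [h3]

theorem pm_one {x : ℝ} (h : Real.sin x = 0) : Real.cos x = 1 ∨ Real.cos x = -1 := by
  have := Real.sin_sq_add_cos_sq x
  rw [h] at this
  have h2 : (Real.cos x - 1) * (Real.cos x + 1) = 0 := by nlinarith
  rcases mul_eq_zero.1 h2 with h | h
  · left; linarith
  · right; linarith

theorem growth_source {z : ℂ} (h1 : Real.sin z.re = 0) (h2 : Real.sin z.im = 0)
    (h : Real.cos z.re * Real.cos z.im = -1) (n : ℕ) : growth ex n z = (5 / 4) ^ n := by
  rw [growth_eq h1 h2, A_det]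
  have hdet : 1 - Real.cos z.im * Real.cos z.re / 4 = 5 / 4 := by linarith
  have hone : (1 : ℝ) ≤ (5 / 4) ^ n := one_le_pow₀ (by norm_num)
  rw [hdet, abs_of_pos (by positivity)]
  have hA : ‖A z‖ ≤ 5 / 4 := by
    apply ContinuousLinearMap.opNorm_le_bound _ (by norm_num)
    intro w
    refine (pow_le_pow_iff_left₀ (norm_nonneg _) (by positivity) two_ne_zero).1 ?_
    rw [A_norm_sq, mul_pow, ← Complex.normSq_eq_norm_sq w, Complex.normSq_apply]
    rcases pm_one h1 with a | a <;> rcases pm_one h2 with b | b <;> rw [a, b] at h ⊢ <;>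
      first
        | (exfalso; norm_num at h; done)
        | nlinarith [sq_nonneg w.re, sq_nonneg w.im]
  have hAn : ‖(A z) ^ n‖ ≤ (5 / 4) ^ n :=
    (norm_pow_le (A z) n).trans (pow_le_pow_left₀ (norm_nonneg _) hA n)
  rw [max_eq_right hAn, max_eq_right hone]

theorem growth_saddle {z : ℂ} (h1 : Real.sin z.re = 0) (h2 : Real.sin z.im = 0)
    (h : Real.cos z.re * Real.cos z.im = 1) (n : ℕ) : growth ex n z = (3 / 2) ^ n := by
  rw [growth_eq h1 h2, A_det]
  have hdet : 1 - Real.cos z.im * Real.cos z.re / 4 = 3 / 4 := by linarith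
  have hone : (1 : ℝ) ≤ (3 / 2) ^ n := one_le_pow₀ (by norm_num)
  have hdn : |(3 / 4 : ℝ) ^ n| ≤ (3 / 2) ^ n := by
    rw [abs_of_pos (by positivity)]
    exact pow_le_pow_left₀ (by norm_num) (by norm_num) n
  rw [hdet]
  have hA : ‖A z‖ ≤ 3 / 2 := by
    apply ContinuousLinearMap.opNorm_le_bound _ (by norm_num)
    intro w
    refine (pow_le_pow_iff_left₀ (norm_nonneg _) (by positivity) two_ne_zero).1 ?_
    rw [A_norm_sq, mul_pow, ← Complex.normSq_eq_norm_sq w, Complex.normSq_apply]
    rcases pm_one h1 with a | a <;> rcases pm_one h2 with b | b <;> rw [a, b] at h ⊢ <;>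
      first
        | (exfalso; norm_num at h; done)
        | nlinarith [sq_nonneg (w.re - w.im), sq_nonneg (w.re + w.im)]
  have hAn : ‖(A z) ^ n‖ ≤ (3 / 2) ^ n :=
    (norm_pow_le (A z) n).trans (pow_le_pow_left₀ (norm_nonneg _) hA n)
  have hlow : (3 / 2) ^ n ≤ ‖(A z) ^ n‖ := by
    set w : ℂ := ⟨1, Real.cos z.im⟩ with hw
    have hw0 : w ≠ 0 := by
      intro h0
      have := congrArg Complex.re h0
      simp [hw] at this
    have heig : A z w = (3 / 2 : ℝ) • w := by
      apply Complex.ext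
      · rw [A_re, Complex.smul_re]
        simp only [hw, smul_eq_mul]
        rcases pm_one h2 with b | b <;> rw [b] <;> norm_num
      · rw [A_im, Complex.smul_im]
        simp only [hw, smul_eq_mul]
        rcases pm_one h1 with a | a <;> rcases pm_one h2 with b | b <;> rw [a, b] at h ⊢ <;>
          first
            | (exfalso; norm_num at h; done)
            | norm_num
    have hpow : ∀ m : ℕ, ((A z) ^ m) w = ((3 / 2 : ℝ) ^ m) • w := by
      intro m
      induction m with
      | zero => simp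
      | succ m ih =>
        rw [pow_succ, mul_apply_eq_comp, heig, map_smul, ih, smul_smul, pow_succ]
        congr 1
        ring
    have h3 := ((A z) ^ n).le_opNorm w
    rw [hpow, norm_smul, Real.norm_of_nonneg (by positivity)] at h3
    exact le_of_mul_le_mul_right h3 (norm_pos_iff.2 hw0)
  have hAeq : ‖(A z) ^ n‖ = (3 / 2) ^ n := le_antisymm hAn hlow
  rw [hAeq, max_eq_left hdn, max_eq_right hone]

/-! ### Entropy -/

theorem iter_fixed {x : T2} (hx : sinS x.1 = 0 ∧ sinS x.2 = 0) (n : ℕ) : M^[n] x = x :=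
  iterate_fixed (M_fixed hx) n

theorem partEntropy_name (ρ : Measure T2) [IsProbabilityMeasure ρ]
    (h : ∀ᵐ x ∂ρ, sinS x.1 = 0 ∧ sinS x.2 = 0) {k : ℕ} (ξ : T2 → Fin k) (n : ℕ) (hn : 1 ≤ n) :
    partEntropy ρ (fun x (i : Fin n) => ξ (M^[i] x)) = partEntropy ρ ξ := by
  have hlt : 0 < n := hn
  unfold partEntropy
  symm
  have hinj : Injective (fun (j : Fin k) (_ : Fin n) => j) := by
    intro a b hab
    exact congrFun hab ⟨0, hlt⟩
  refine Fintype.sum_of_injective _ hinj _ _ ?_ ?_
  · intro w hw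
    have h0 : ρ.real ((fun (x : T2) (i : Fin n) => ξ (M^[(i : ℕ)] x)) ⁻¹' {w}) = 0 := by
      rw [measureReal_eq_zero_iff, measure_eq_zero_iff_ae_notMem]
      filter_upwards [h] with x hx hmem
      apply hw
      refine ⟨ξ x, ?_⟩
      have h1 : (fun i : Fin n => ξ (M^[(i : ℕ)] x)) = w := hmem
      rw [← h1]
      funext i
      rw [iter_fixed hx]
    rw [h0, Real.negMulLog_zero]
  · intro j
    congr 1
    apply measureReal_congr
    filter_upwards [h] with x hx
    apply propext
    show ξ x = j ↔ (fun i : Fin n => ξ (M^[(i : ℕ)] x)) = fun _ => j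
    constructor
    · intro hj
      funext i
      rw [iter_fixed hx, hj]
    · intro hj
      have := congrFun hj ⟨0, hlt⟩
      simpa using this

theorem entropy_le (ρ : Measure T2) [IsProbabilityMeasure ρ]
    (h : ∀ᵐ x ∂ρ, sinS x.1 = 0 ∧ sinS x.2 = 0) : entropy M ρ ≤ 0 := by
  unfold entropy
  refine iSup_le fun k => iSup_le fun ξ => iSup_le fun _ => ?_
  have h1 : Tendsto (fun n : ℕ => ((partEntropy ρ (fun x (i : Fin n) => ξ (M^[i] x)) / n : ℝ) : EReal))
      atTop (𝓝 ((0 : ℝ) : EReal)) := by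
    refine (continuous_coe_real_ereal.tendsto 0).comp ?_
    have h2 : Tendsto (fun n : ℕ => partEntropy ρ ξ / (n : ℝ)) atTop (𝓝 0) :=
      tendsto_const_div_atTop_nhds_zero_nat _
    refine h2.congr' ?_
    filter_upwards [eventually_ge_atTop 1] with n hn
    rw [partEntropy_name ρ h ξ n hn]
  rw [h1.limsup_eq]
  simp

/-- the sum of the positive exponents at the fixed points -/
def chi (x : T2) : ℝ := if 0 < cosS x.1 * cosS x.2 then Real.log (3 / 2) else Real.log (5 / 4)

theorem measurable_chi : Measurable chi := by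
  unfold chi
  refine Measurable.ite ?_ measurable_const measurable_const
  exact measurableSet_lt measurable_const
    ((continuous_cosS.comp continuous_fst).mul (continuous_cosS.comp continuous_snd)).measurable

theorem chi_ge (x : T2) : Real.log (5 / 4) ≤ chi x := by
  unfold chi
  split_ifs
  · exact Real.log_le_log (by norm_num) (by norm_num)
  · exact le_rfl

theorem chi_le (x : T2) : chi x ≤ Real.log (3 / 2) := by
  unfold chi
  split_ifs
  · exact le_rfl
  · exact Real.log_le_log (by norm_num) (by norm_num)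

theorem integrable_chi (ρ : Measure T2) [IsProbabilityMeasure ρ] : Integrable chi ρ := by
  refine Integrable.of_bound measurable_chi.aestronglyMeasurable (Real.log (3 / 2)) ?_
  refine Eventually.of_forall fun x => ?_
  have h1 : 0 ≤ Real.log (5 / 4) := Real.log_nonneg (by norm_num)
  rw [Real.norm_of_nonneg (h1.trans (chi_ge x))]
  exact chi_le x

theorem isChiPlus_chi (ρ : Measure T2) (h : ∀ᵐ x ∂ρ, sinS x.1 = 0 ∧ sinS x.2 = 0) :
    IsChiPlus ex ρ chi := by
  unfold IsChiPlus
  filter_upwards [h] with x hx z hz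
  subst hz
  have h1 : Real.sin z.re = 0 := by
    have := hx.1
    rwa [show sinS (proj z).1 = Real.sin z.re from sinS_coe _] at this
  have h2 : Real.sin z.im = 0 := by
    have := hx.2
    rwa [show sinS (proj z).2 = Real.sin z.im from sinS_coe _] at this
  have hc : chi (proj z) = if 0 < Real.cos z.re * Real.cos z.im then Real.log (3 / 2)
      else Real.log (5 / 4) := by
    unfold chi
    rw [show cosS (proj z).1 = Real.cos z.re from cosS_coe _,
      show cosS (proj z).2 = Real.cos z.im from cosS_coe _]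
  have hval : Real.cos z.re * Real.cos z.im = 1 ∨ Real.cos z.re * Real.cos z.im = -1 := by
    rcases pm_one h1 with a | a <;> rcases pm_one h2 with b | b <;> rw [a, b] <;> norm_num
  refine tendsto_const_nhds.congr' ?_
  filter_upwards [eventually_ge_atTop 1] with n hn
  have hn' : (n : ℝ) ≠ 0 := by
    have : 0 < n := hn
    positivity
  rcases hval with hv | hv
  · rw [growth_saddle h1 h2 hv, Real.log_pow, hc, hv, if_pos (by norm_num)]
    field_simp
  · rw [growth_source h1 h2 hv, Real.log_pow, hc, hv, if_neg (by norm_num)]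
    field_simp

/-- There is a `C^∞` diffeomorphism `f` of the 2-torus such that every `f`-invariant Borel
probability measure `ρ` satisfies `h(ρ) < ∫ χ₊ dρ`. -/
theorem result : ∃ f : TorusDiffeo, ∀ ρ : Measure T2, IsProbabilityMeasure ρ →
    MeasurePreserving f.map ρ ρ →
    ∃ χ : T2 → ℝ, IsChiPlus f ρ χ ∧ Integrable χ ρ ∧
      entropy f.map ρ < ((∫ x, χ x ∂ρ : ℝ) : EReal) := by
  refine ⟨ex, fun ρ hρ hinv => ?_⟩
  have hinv' : MeasurePreserving M ρ ρ := hinv
  have h := ae_fixed ρ hinv'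
  refine ⟨chi, isChiPlus_chi ρ h, integrable_chi ρ, ?_⟩
  refine lt_of_le_of_lt (entropy_le ρ h) ?_
  rw [← EReal.coe_zero, EReal.coe_lt_coe_iff]
  have h1 : 0 < Real.log (5 / 4) := Real.log_pos (by norm_num)
  refine lt_of_lt_of_le h1 ?_
  calc Real.log (5 / 4) = ∫ _ : T2, Real.log (5 / 4) ∂ρ := by simp
    _ ≤ ∫ x, chi x ∂ρ := integral_mono (integrable_const _) (integrable_chi ρ) chi_ge

end

end Pool.Agent.Results.MP_794bd6_an.TorusStrictH27
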